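import Pool.Agent.Rn4.Asm

/-!
# Root numbers of elliptic curves over `ℚ` with a rational point of order 4

Among all elliptic curves over `ℚ` with a rational point of order `4`, ordered by naive height, the proportion with root
number `+1` tends to `1/2`. The root number is minus the product of the local root numbers: Rohrlich's formula at the
primes `p ≥ 5`, and at `2` and `3` any choice of signs that is locally constant on the set of nonsingular Weierstrass
equations, as the local root numbers are.
-/

set_option autoImplicit false

namespace Pool.Agent.Results.MP_b8563d_nt.FourTorsion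

open Filter Topology

theorem result (w2 : ℤ_[2] × ℤ_[2] → ℤ) (w3 : ℤ_[3] × ℤ_[3] → ℤ)
    (h2 : Rnt.LocalSign 2 w2) (h3 : Rnt.LocalSign 3 w3) :
    Tendsto (fun X : ℝ =>
      ({E ∈ Rn4.Fam4 X | Rnt.rootNumber w2 w3 E.1 E.2 = 1}.ncard : ℝ) / (Rn4.Fam4 X).ncard) atTop (𝓝 (1 / 2)) :=
  Rn4.final w2 w3 h2 h3

end Pool.Agent.Results.MP_b8563d_nt.FourTorsion
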