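import Pool.Agent.Rnt.Asm

/-!
# MP_b8563d_nt: root numbers of elliptic curves over `ℚ` with a rational point of order 2

Ordered by the naive height, half of them have root number `+1`.

Proof.  These curves are the `y² = (x - r)(x² + rx + A + r²)`.  With `b = A + 3r²` and `c = 4A + 3r² = 4b - 9r²` one has
`4A³ + 27B² = b²c`.  Leave out those for which a prime `p > T` divides both `A` and `r`, or `p² ∣ b`, or `p² ∣ c`, or
for which `p ^ j` divides `r`, `b` or `c` for a prime `p ≤ T`: their proportion is small if `T` is large and `j` is large in terms
of `T` (`exc_total`; the numbers `4b - 9r²` are dealt with by counting the `b` in the classes modulo `p²` or modulo two such squares).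
Let `u`, `v`, `ρ` be the largest divisors of `|b|`, `|c|`, `|r|` without a prime factor `p > T`, and `b' = |b| / u`,
`c' = |c| / v`, `r' = |r| / ρ`.  The bad primes `p > T` are those of `b' c'`, they are places of multiplicative
reduction, and the product of their local root numbers is `μ(b') μ(c')` times the Jacobi symbols
`(3r / b') (-6r / c')`.  Since `c = 4b` modulo `r'`, the reciprocity law shows that these symbols depend only on `A`, `r`
modulo a fixed number and on the signs of `r`, `b`, `c` (`ident`).  So the sum of the root numbers is a combination of
sums of `μ(|b| / u) μ(|4b - 9r²| / v)` over residue classes and regions (`cell_bound`).  Such a sum is small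
(`core`): by the inequality of Cauchy and Schwarz for the sum over `b` and that of van der Corput for the sum over `r`,
it is enough to bound, for most `h`, sums of `μ(|n| / v) μ(|n - 9h² - 18hr| / v)` over `n` and `r` (`corr`), and for most `n` there is
cancellation in the sum over `r`, which runs over a short arithmetic progression, by the theorem of Matomäki and Radziwiłł
(`Mrd.mr_mu`).
-/

set_option autoImplicit false

namespace Pool.Agent.Results.MP_b8563d_nt.TwoTorsion

open Filter Topology Rnt

theorem result (w2 : ℤ_[2] × ℤ_[2] → ℤ) (w3 : ℤ_[3] × ℤ_[3] → ℤ) (h2 : LocalSign 2 w2)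
    (h3 : LocalSign 3 w3) :
    Tendsto (fun X : ℝ => ({E ∈ Fam X | rootNumber w2 w3 E.1 E.2 = 1}.ncard : ℝ) /
      ((Fam X).ncard : ℝ)) atTop (𝓝 (1 / 2)) :=
  Rnt.final w2 w3 h2 h3

end Pool.Agent.Results.MP_b8563d_nt.TwoTorsion
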